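import Pool.Agent.Lib.MP_acafa7_al.F.IfaceG

/-! BRG: the complex `X × ℤ`. -/

namespace MSG.F09

open Classical

theorem shft_zpow {V : Type} (n : ℤ) (x : V) (m : ℤ) :
    ((shft V) ^ n) (x, m) = (x, m + n) := by
  induction n using Int.induction_on generalizing m with
  | zero => simp
  | succ i ih =>
    rw [zpow_add_one, Equiv.Perm.mul_apply]
    have h : (shft V) (x, m) = (x, m + 1) := rfl
    rw [h, ih]
    ext <;> simp
    ring
  | pred i ih =>
    rw [zpow_sub_one, Equiv.Perm.mul_apply]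
    have h : (shft V)⁻¹ (x, m) = (x, m - 1) := rfl
    rw [h, ih]
    ext <;> simp
    ring

theorem brg_free {V : Type} (X : Cx V) : FreeAut X.times (shft V) where
  adj x y := by
    show X.G.Adj x.1 y.1 ∧ x.2 + 1 = y.2 + 1 ↔ X.G.Adj x.1 y.1 ∧ x.2 = y.2
    constructor
    · rintro ⟨h, h'⟩; exact ⟨h, by omega⟩
    · rintro ⟨h, h'⟩; exact ⟨h, by omega⟩
  len x y := rfl
  free := by
    rintro ⟨x, m⟩ n h
    rw [shft_zpow] at h
    have := congrArg Prod.snd h
    simp at this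
    exact this

theorem brg_metric {V : Type} (X : Cx V) (h : X.IsMetric) : X.times.IsMetric where
  symm x y := h.symm x.1 y.1
  pos x y hxy := h.pos x.1 y.1 hxy.1
  tri x y z h1 h2 h3 := h.tri x.1 y.1 z.1 h1.1 h2.1 h3.1
  angle v x y z h1 h2 h3 h4 h5 h6 := h.angle v.1 x.1 y.1 z.1 h1.1 h2.1 h3.1 h4.1 h5.1 h6.1

theorem brg_large {V : Type} (X : Cx V) (h : X.Large) : X.times.Large := by
  rintro ⟨v, n⟩ k c hk hc hf
  have hsnd : ∀ i, (c i).2 = n := fun i => ((hc.link i).2).symm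
  refine h v k (fun i => (c i).1) hk ⟨fun i => by rw [hc.per], fun i => (hc.link i).1,
    fun i => (hc.adj i).1, fun i j hi hj hij => hc.inj i j hi hj ?_⟩ ?_
  · exact Prod.ext hij (by rw [hsnd, hsnd])
  · intro i hi
    exact hf i ⟨hi, by rw [hsnd, hsnd]⟩

theorem brg_st : BrgStatement := fun _ X => ⟨brg_metric X, brg_large X, brg_free X⟩

end MSG.F09
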