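import Pool.Agent.Lib.MP_acafa7_al.F.IfaceG
import Pool.Agent.Lib.MP_acafa7_al.MS.Full1

/-! PFILL: filling a face of a labelled map. -/

namespace MSG.F09

open Classical

/-- embedding of `V` in `V × ℤ` -/
def up {V : Type} (x : V) : V × ℤ := (x, 0)

theorem wkA_toL {V D : Type} (M : PMap V D) : ∀ l : List D,
    M.toL.wkA 0 l = (l.map M.φ).map (fun d => up (M.f d))
  | [] => rfl
  | r :: l => by
    have h : M.toL.wkA 0 (r :: l) = ((shft V) ^ (0 : ℤ)) (M.toL.t r) :: M.toL.wkA (0 + 0) l := rfl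
    rw [h, add_zero, wkA_toL M l]
    have ht : ((shft V) ^ (0 : ℤ)) (M.toL.t r) = up (M.f (M.φ r)) := by
      show ((shft V) ^ (0 : ℤ)) (((shft V) ^ (0 : ℤ)) (M.f (M.ι r), 0)) = _
      simp [up, M.tgt]
    rw [ht]
    rfl

theorem wk_toL {V D : Type} (M : PMap V D) (F : List D) (hF : M.IsFace F) :
    M.toL.wk F = (M.wk F).map up := by
  cases F with
  | nil => exact absurd rfl hF.1
  | cons r l =>
    have h : M.toL.wk (r :: l) = up (M.f r) :: M.toL.wkA 0 (r :: l) := rfl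
    rw [h, wkA_toL, hF.2.2]
    simp [PMap.wk, List.map_append]

theorem stp_up {V : Type} {G : SimpleGraph V} {len : V → V → ℝ} {S : Set V} {w w' : List V}
    {e : ZMod 2} (h : Stp G S (fun _ _ _ => 0) w w' e) :
    Stp (Cx.times ⟨G, len⟩).G {p | p.1 ∈ S} (fun _ _ _ => 0) (w.map up) (w'.map up) e := by
  cases h with
  | ins u v x y h1 h2 =>
    simp only [List.map_append, List.map_cons]
    exact Stp.ins _ _ (up x) (up y) ⟨h1, rfl⟩ h2
  | del u v x y h1 =>
    simp only [List.map_append, List.map_cons]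
    exact Stp.del _ _ (up x) (up y) ⟨h1, rfl⟩
  | exp u v x y z h1 h2 h3 h4 =>
    simp only [List.map_append, List.map_cons]
    exact Stp.exp (ω := fun _ _ _ => 0) _ _ (up x) (up y) (up z) ⟨h1, rfl⟩ ⟨h2, rfl⟩ ⟨h3, rfl⟩ h4
  | con u v x y z h1 h2 h3 =>
    simp only [List.map_append, List.map_cons]
    exact Stp.con (ω := fun _ _ _ => 0) _ _ (up x) (up y) (up z) ⟨h1, rfl⟩ ⟨h2, rfl⟩ ⟨h3, rfl⟩

theorem nulp_up {V : Type} {G : SimpleGraph V} {len : V → V → ℝ} {S : Set V} {w : List V}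
    {e : ZMod 2} {n : ℕ} (h : NulP G S (fun _ _ _ => 0) w e n) :
    NulP (Cx.times ⟨G, len⟩).G {p | p.1 ∈ S} (fun _ _ _ => 0) (w.map up) e n := by
  induction h with
  | base x y h => exact NulP.base (up x) (up y) ⟨h, rfl⟩
  | rot x y l e n h1 h2 ih =>
    refine NulP.rot (up x) (up y) (l.map up) e n ?_ ?_
    · have : up x :: up y :: l.map up = (x :: y :: l).map up := rfl
      rw [this, List.getLast?_map, h1]
      rfl
    · simpa using ih
  | stp w w' e e' n h1 h2 h3 ih =>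
    have h := NulP.stp (w.map up) (w'.map up) e e' n (stp_up (len := len) h1) (by simpa using h2) ih
    simpa [nTri] using h

theorem pfill_st (hb : BrgStatement) : PFillStatement := by
  intro V D _ G S M F e n hpl hadj hF hN hS
  set X : Cx V := ⟨G, fun _ _ => 1⟩ with hX
  have hfree : FreeAut X.times (shft V) := (hb V X).2.2
  have hco : Cocyc X.times.G {p : V × ℤ | p.1 ∈ S} (fun _ _ _ => (0 : ZMod 2)) :=
    ⟨fun _ _ _ => rfl, fun _ _ _ => rfl, fun _ _ _ _ _ _ _ _ _ _ _ _ _ _ => by simp⟩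
  have hz : M.toL.Zero := fun _ => ⟨rfl, rfl⟩
  have ht : ∀ d, M.toL.t d = (M.f (M.ι d), 0) := fun d => by
    show ((shft V) ^ (0 : ℤ)) (M.f (M.ι d), 0) = _
    simp
  have hw : M.toL.HasWalk F ((M.wk F).map up) :=
    ⟨hF, 0, by rw [wk_toL M F hF]; simp, fun _ => rfl⟩
  have hadjL : M.toL.AdjM X.times.G := by
    intro d
    rw [ht d]
    exact ⟨hadj d, rfl⟩
  obtain ⟨D', fD', M', h1, h2, ⟨j, j1, -, j3, j4, j5, j6⟩, h4⟩ :=
    a_fill (V × ℤ) D X.times (shft V) hfree M.toL F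
      {p : V × ℤ | p.1 ∈ S} (fun _ _ _ => 0) ((M.wk F).map up) e n hco hpl hadjL hw
      (nulp_up hN)
  obtain ⟨h5, h6, -⟩ := h4 hz
  have h6 := h6 hS
  have ht' : ∀ d, M'.t d = M'.f (M'.ι d) := fun d => by
    show ((shft V) ^ (M'.γ d)) (M'.f (M'.ι d)) = _
    rw [(h5 d).1]
    simp
  refine ⟨D', fD', M'.toP h5, j, j1, j3, fun x => ?_, fun d' hd' => ?_, h1, fun d => ?_, fun d => h6 d,
    by simpa using j6⟩
  · have := (j4 x).1
    show (M'.f (j x)).1 = M.f x.1
    rw [this]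
    rfl
  · exact (j5 d' (by simp) hd').1
  · have := h2 d
    rw [ht' d] at this
    exact this.1

end MSG.F09
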